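import Pool.Agent.H84.SF.Geo2
import Pool.Agent.H62.HIL.Eig

/-!
# MP_70ba79_ag, THEOREM S: `DSO`, the curve `D` is a solution of the equation in the local ring
-/

set_option autoImplicit false

namespace Pool.Agent.H70.SF

open Pool.Agent.H84.SF
open MvPolynomial SC
open Pool.Agent.H27.LV (ge deg poleOrder canDeg)
open Pool.Agent.H92.OD (HS cf sg uu Lat geO IsO DF DD)
open Pool.Agent.H84.SM (y1 y2 Near cr dt dp)
open Pool.Agent.H3.SF (Itg Bb BB Hm eu grd hes Sfc Crd Cnn Crf Prm nv gx)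
open Pool.Agent.H92.SF (hq)
open Pool.Agent.H62.HIL (hm_mul hm_sub hm_one hm_zero hm_pow hm_sum hm_aeval)

section Eval

variable {O : Type} [CommRing O]

/-- value of a form in two variables at `(1, 0)` -/
theorem coeff_eval_one_zero (n : ℕ) (Q : MvPolynomial (Fin 2) O) (hQ : Q.IsHomogeneous n) :
    coeff (Finsupp.single 0 n + Finsupp.single 1 0) Q = eval ![1, 0] Q := by
  classical
  have hs : ∀ a : Fin 2 →₀ ℕ, coeff a Q ≠ 0 → a 0 + a 1 = n := by
    intro a ha
    have h1 := hQ ha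
    rw [Finsupp.weight_apply, Finsupp.sum_fintype _ _ (by simp), Fin.sum_univ_two] at h1
    simpa using h1
  have hz : (Finsupp.single 0 n + Finsupp.single 1 0 : Fin 2 →₀ ℕ) = Finsupp.single 0 n := by simp
  rw [hz, eval_eq']
  rw [Finset.sum_eq_single (Finsupp.single 0 n)]
  · simp [Fin.prod_univ_two]
  · intro a ha hne
    have h1 : a 1 ≠ 0 := by
      intro h0
      apply hne
      have h2 := hs a (mem_support_iff.mp ha)
      ext i
      fin_cases i
      · simp
        omega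
      · simp [h0]
    rw [Fin.prod_univ_two]
    simp [h1]
  · intro h
    rw [notMem_support_iff.mp h, zero_mul]

/-- the first coefficient of the form in the frame -/
theorem bcy_zero (s t : Fin 3 → O) (b : MvPolynomial (Fin 3) O) (hb : b.IsHomogeneous 3) :
    coeff (Finsupp.single 0 3 + Finsupp.single 1 0)
      (aeval (fun i : Fin 3 => C (s i) * X 0 + C (t i) * X 1 :
        Fin 3 → MvPolynomial (Fin 2) O) b) = eval s b := by
  have hh : (aeval (fun i : Fin 3 => C (s i) * X 0 + C (t i) * X 1 :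
        Fin 3 → MvPolynomial (Fin 2) O) b).IsHomogeneous 3 := by
    have h1 := hb.aeval (fun i : Fin 3 => C (s i) * X 0 + C (t i) * X 1 :
        Fin 3 → MvPolynomial (Fin 2) O) (n := 1) (fun i => by
      refine IsHomogeneous.add ?_ ?_
      · have := (isHomogeneous_C (Fin 2) (s i)).mul (isHomogeneous_X O (0 : Fin 2))
        simpa using this
      · have := (isHomogeneous_C (Fin 2) (t i)).mul (isHomogeneous_X O (1 : Fin 2))
        simpa using this)
    simpa using h1
  rw [coeff_eval_one_zero 3 _ hh]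
  have h2 : ∀ f : MvPolynomial (Fin 3) O, eval ![1, 0] (aeval (fun i : Fin 3 => C (s i) * X 0 +
      C (t i) * X 1 : Fin 3 → MvPolynomial (Fin 2) O) f) = eval s f := by
    intro f
    induction f using MvPolynomial.induction_on with
    | C a => simp [algebraMap_eq]
    | add p q hp hq => rw [map_add, map_add, map_add, hp, hq]
    | mul_X p i hp =>
      rw [map_mul, map_mul, map_mul, hp]
      simp
  exact h2 b

/-- scaling of the variables -/
theorem eval_scale (n : ℕ) (B : MvPolynomial (Fin 3) O) (hB : B.IsHomogeneous n) (L : O)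
    (w : Fin 3 → O) : eval (fun i => w i * L) B = eval w B * L ^ n := by
  rw [eval_eq', eval_eq', Finset.sum_mul]
  refine Finset.sum_congr rfl fun a ha => ?_
  have h1 := hB (mem_support_iff.mp ha)
  rw [Finsupp.weight_apply, Finsupp.sum_fintype _ _ (by simp), Fin.sum_univ_three] at h1
  have h2 : a 0 + a 1 + a 2 = n := by simpa using h1
  rw [Fin.prod_univ_three, Fin.prod_univ_three, ← h2]
  ring

end Eval

/-! ### polynomials with homogeneous coefficients -/

section HC

variable {k F : Type} [Field k] [Field F] [Algebra k F] {E : Derivation k F F}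

/-- all coefficients are homogeneous of degree `t` -/
def HC (E : Derivation k F F) (t : ℤ) (P : MvPolynomial (Fin 3) F) : Prop :=
  ∀ a, Hm k E t (P.coeff a)

theorem hc_C {t : ℤ} {r : F} (h : Hm k E t r) : HC E t (C r) := by
  classical
  intro a
  rw [coeff_C]
  split_ifs
  · exact h
  · exact hm_zero _

theorem hc_X (i : Fin 3) : HC E 0 (X i) := by
  classical
  intro a
  rw [coeff_X]
  split_ifs
  · exact hm_one
  · exact hm_zero _

theorem hc_one : HC E 0 1 := by
  have := hc_C (k := k) (E := E) (hm_one (κ := k) (E := E))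
  rwa [C_1] at this

theorem hc_mul {s t : ℤ} {P Q : MvPolynomial (Fin 3) F} (hP : HC E s P) (hQ : HC E t Q) :
    HC E (s + t) (P * Q) := by
  classical
  intro a
  rw [coeff_mul]
  exact hm_sum _ _ fun x _ => hm_mul (hP _) (hQ _)

theorem hc_sub {t : ℤ} {P Q : MvPolynomial (Fin 3) F} (hP : HC E t P) (hQ : HC E t Q) :
    HC E t (P - Q) := by
  intro a
  rw [coeff_sub]
  exact hm_sub (hP _) (hQ _)

theorem hc_sum {τ : Type} {t : ℤ} (s : Finset τ) (f : τ → MvPolynomial (Fin 3) F)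
    (h : ∀ i ∈ s, HC E t (f i)) : HC E t (∑ i ∈ s, f i) := by
  intro a
  rw [coeff_sum]
  exact hm_sum _ _ fun i hi => h i hi a

theorem hc_pow {t : ℤ} {P : MvPolynomial (Fin 3) F} (hP : HC E t P) (n : ℕ) :
    HC E (n * t) (P ^ n) := by
  induction n with
  | zero => simpa using hc_one (k := k) (E := E)
  | succ n ih =>
    rw [pow_succ]
    have h1 := hc_mul ih hP
    have h2 : (n : ℤ) * t + t = ((n + 1 : ℕ) : ℤ) * t := by push_cast; ring
    rwa [h2] at h1

theorem hc_aeval {α t : ℤ} {b : MvPolynomial (Fin 3) F} (n : ℕ) (hb : b.IsHomogeneous n)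
    (hc : HC E α b) (v : Fin 3 → MvPolynomial (Fin 3) F) (hv : ∀ i, HC E t (v i)) :
    HC E (α + n * t) (aeval v b) := by
  rw [b.as_sum, map_sum]
  refine hc_sum _ _ fun a ha => ?_
  have h1 := hb (mem_support_iff.mp ha)
  rw [Finsupp.weight_apply, Finsupp.sum_fintype _ _ (by simp), Fin.sum_univ_three] at h1
  have h2 : a 0 + a 1 + a 2 = n := by simpa using h1
  rw [aeval_monomial, Finsupp.prod_fintype _ _ (by simp), Fin.prod_univ_three, algebraMap_eq]
  have h3 := hc_mul (hc_C (hc a)) (hc_mul (hc_mul (hc_pow (hv 0) (a 0)) (hc_pow (hv 1) (a 1)))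
    (hc_pow (hv 2) (a 2)))
  have h4 : α + (((a 0 : ℕ) : ℤ) * t + ((a 1 : ℕ) : ℤ) * t + ((a 2 : ℕ) : ℤ) * t) =
      α + (n : ℤ) * t := by
    rw [← h2]
    push_cast
    ring
  rwa [h4] at h3

/-- the polynomial of `Cnn.comp` -/
theorem q0_hc (j0 m α : ℤ) (J A : F) (u g : Fin 3 → F) (H : Fin 3 → Fin 3 → F)
    (b : MvPolynomial (Fin 3) F) (hb : b.IsHomogeneous 3) (hc : HC E α b) (hJ : Hm k E j0 J)
    (hA : Hm k E α A) (hu : ∀ i, Hm k E 1 (u i)) (hg : ∀ i, Hm k E (m - 1) (g i))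
    (hH : ∀ i j, Hm k E (m - 2) (H i j)) :
    HC E (α + 6 * j0 + 3 * m - 3) (aeval (fun i => C (J ^ 2) * cr (fun i => C (g i)) X i) b -
      C (A * J ^ 6) * hq (fun i j => C (H i j)) (cr (fun i => C (g i)) X)
        (cr (fun i => C (g i)) X) * dp (fun i => C (u i)) X) := by
  have hcr : ∀ i : Fin 3, HC E (m - 1) (cr (fun i => C (g i)) X i : MvPolynomial (Fin 3) F) := by
    intro i
    unfold cr
    have h1 := hc_mul (hc_C (hg (i + 1))) (hc_X (k := k) (E := E) (i + 2))
    have h2 := hc_mul (hc_C (hg (i + 2))) (hc_X (k := k) (E := E) (i + 1))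
    rw [add_zero] at h1 h2
    exact hc_sub h1 h2
  refine hc_sub ?_ ?_
  · have h1 := hc_aeval 3 hb hc (fun i => C (J ^ 2) * cr (fun i => C (g i)) X i)
      (fun i => hc_mul (hc_C (hm_pow hJ 2)) (hcr i))
    have h2 : α + ((3 : ℕ) : ℤ) * (((2 : ℕ) : ℤ) * j0 + (m - 1)) = α + 6 * j0 + 3 * m - 3 := by
      push_cast
      ring
    rwa [h2] at h1
  · have h1 : HC E (m - 2 + (m - 1) + (m - 1)) (hq (fun i j => C (H i j))
        (cr (fun i => C (g i)) X) (cr (fun i => C (g i)) X) : MvPolynomial (Fin 3) F) := by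
      unfold hq
      exact hc_sum _ _ fun i _ => hc_sum _ _ fun j _ =>
        hc_mul (hc_mul (hc_C (hH i j)) (hcr i)) (hcr j)
    have h2 : HC E (1 + 0) (dp (fun i => C (u i)) X : MvPolynomial (Fin 3) F) := by
      unfold dp
      exact hc_sum _ _ fun i _ => hc_mul (hc_C (hu i)) (hc_X i)
    have h3 := hc_mul (hc_mul (hc_C (hm_mul hA (hm_pow hJ 6))) h1) h2
    have h4 : α + ((6 : ℕ) : ℤ) * j0 + (m - 2 + (m - 1) + (m - 1)) + (1 + 0) =
        α + 6 * j0 + 3 * m - 3 := by
      push_cast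
      ring
    rwa [h4] at h3

omit [Algebra k F] [Field k] in
/-- it is a cubic form -/
theorem q0_hom (J A : F) (u g : Fin 3 → F) (H : Fin 3 → Fin 3 → F)
    (b : MvPolynomial (Fin 3) F) (hb : b.IsHomogeneous 3) :
    (aeval (fun i => C (J ^ 2) * cr (fun i => C (g i)) X i) b -
      C (A * J ^ 6) * hq (fun i j => C (H i j)) (cr (fun i => C (g i)) X)
        (cr (fun i => C (g i)) X) * dp (fun i => C (u i)) X :
      MvPolynomial (Fin 3) F).IsHomogeneous 3 := by
  have hcr : ∀ i : Fin 3, (cr (fun i => C (g i)) X i : MvPolynomial (Fin 3) F).IsHomogeneous 1 := by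
    intro i
    unfold cr
    have h1 := (isHomogeneous_C (Fin 3) (g (i + 1))).mul (isHomogeneous_X F (i + 2))
    have h2 := (isHomogeneous_C (Fin 3) (g (i + 2))).mul (isHomogeneous_X F (i + 1))
    rw [zero_add] at h1 h2
    exact h1.sub h2
  refine IsHomogeneous.sub ?_ ?_
  · have h1 := hb.aeval (fun i => C (J ^ 2) * cr (fun i => C (g i)) X i) (n := 1) (fun i => by
      have := (isHomogeneous_C (Fin 3) (J ^ 2)).mul (hcr i)
      rwa [zero_add] at this)
    simpa using h1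
  · have h1 : (hq (fun i j => C (H i j)) (cr (fun i => C (g i)) X) (cr (fun i => C (g i)) X) :
        MvPolynomial (Fin 3) F).IsHomogeneous 2 := by
      unfold hq
      refine IsHomogeneous.sum _ _ _ fun i _ => IsHomogeneous.sum _ _ _ fun j _ => ?_
      have := ((isHomogeneous_C (Fin 3) (H i j)).mul (hcr i)).mul (hcr j)
      simpa using this
    have h2 : (dp (fun i => C (u i)) X : MvPolynomial (Fin 3) F).IsHomogeneous 1 := by
      unfold dp
      refine IsHomogeneous.sum _ _ _ fun i _ => ?_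
      have := (isHomogeneous_C (Fin 3) (u i)).mul (isHomogeneous_X F i)
      simpa using this
    have h3 := ((isHomogeneous_C (Fin 3) (A * J ^ 6)).mul h1).mul h2
    simpa using h3

end HC

/-! ### lifting to the local ring -/

section Lift

theorem dt_map {R S : Type} [CommRing R] [CommRing S] (φ : R →+* S) (a b c : Fin 3 → R) :
    φ (dt a b c) = dt (fun i => φ (a i)) (fun i => φ (b i)) (fun i => φ (c i)) := by
  simp only [dt, dp, cr, map_sum, map_mul, map_sub]

theorem dp_map {R S : Type} [CommRing R] [CommRing S] (φ : R →+* S) (a b : Fin 3 → R) :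
    φ (dp a b) = dp (fun i => φ (a i)) (fun i => φ (b i)) := by
  simp only [dp, map_sum, map_mul]

theorem dt_scale {S : Type} [CommRing S] (a b c : Fin 3 → S) (L : S) :
    dt (fun i => a i * L) (fun i => b i * L) (fun i => c i * L) = dt a b c * L ^ 3 := by
  simp only [dt, dp, cr, Fin.sum_univ_three]
  ring

theorem eval_lift {O S : Type} [CommRing O] [CommRing S] (φ : O →+* S) (n r : ℕ) (L J : S)
    (b1 : MvPolynomial (Fin 3) O) (b : MvPolynomial (Fin 3) S) (h1 : b1.IsHomogeneous n)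
    (hb : ∀ a, φ (b1.coeff a) * L ^ r = J * b.coeff a) (v : Fin 3 → O) (y : Fin 3 → S)
    (hv : ∀ i, φ (v i) * L = y i) : φ (eval v b1) * L ^ (r + n) = J * eval y b := by
  have h2 : φ (eval v b1) = eval (fun i => φ (v i)) (map φ b1) := by
    rw [eval_map, eval, coe_eval₂Hom, eval₂_comp_left φ (RingHom.id O) v b1]
    rfl
  have h3 : map φ b1 * C (L ^ r) = C J * b := by
    ext a
    rw [mul_comm, coeff_C_mul, coeff_C_mul, coeff_map, mul_comm]
    exact hb a
  have h4 : eval y (map φ b1) = eval (fun i => φ (v i)) (map φ b1) * L ^ n := by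
    rw [← eval_scale n (map φ b1) (h1.map φ) L]
    exact congrArg (fun z => eval z (map φ b1)) (funext fun i => (hv i).symm)
  have h5 : J * eval y b = eval y (map φ b1) * L ^ r := by
    have h6 := congrArg (eval y) h3
    rw [map_mul, map_mul, eval_C, eval_C] at h6
    exact h6.symm
  rw [h5, h4, h2]
  ring

theorem final_id {F : Type} [Field F] (L Bl js pl a1 gs w1 dps Jv T Av G ul EQ DP M : F)
    (j0 c α m d : ℕ) (hL : L ≠ 0) (hm : 2 ≤ m) (hd : d + m = j0 + c + 1)
    (h1 : Bl * L ^ (α + j0 + 3) = Jv * T) (h2 : js * L ^ (j0 + 0) = Jv * 1) (h3 : pl * L = ul)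
    (h4 : a1 * L ^ (α + j0) = Jv * Av) (h5 : gs * L ^ m = G)
    (h6 : w1 * L ^ (j0 + (α + 6 * j0 + (2 * m - 3))) * (L ^ (d + 1)) ^ 3 * G = Jv * EQ)
    (h7 : dps * (L ^ (d + 1) * L) = DP)
    (h8 : Jv ^ 6 * (Jv * ul ^ c) ^ 3 * T =
      EQ - M * G * Av * Jv ^ 6 * (Jv * ul ^ c) ^ 2 * DP) :
    Bl * js ^ 9 * pl ^ (3 * c) = gs * (w1 - M * a1 * js ^ 6 * (js * pl ^ c) ^ 2 * dps) := by
  have hJ : Jv = js * L ^ j0 := by simpa using h2.symm
  have h9 : Jv ^ 6 * (Jv * ul ^ c) ^ 3 * (Jv * T) =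
      Jv * EQ - M * G * (Jv * Av) * Jv ^ 6 * (Jv * ul ^ c) ^ 2 * DP := by
    linear_combination Jv * h8
  rw [← h1, ← h6, ← h4, ← h7, ← h5, ← h3, hJ] at h9
  have e1 : L ^ (10 * j0 + 3 * c + α + 3) =
      L ^ (j0 + (α + 6 * j0 + (2 * m - 3))) * (L ^ (d + 1)) ^ 3 * L ^ m := by
    rw [← pow_mul, ← pow_add, ← pow_add]
    congr 1
    omega
  have e2 : L ^ (10 * j0 + 3 * c + α + 3) =
      L ^ m * L ^ (α + j0) * (L ^ j0) ^ 6 * (L ^ j0 * L ^ c) ^ 2 * L ^ (d + 1) * L := by
    have h : 10 * j0 + 3 * c + α + 3 = m + (α + j0) + j0 * 6 + (j0 + c) * 2 + (d + 1) + 1 := by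
      omega
    rw [h]
    ring
  apply mul_right_cancel₀ (pow_ne_zero (10 * j0 + 3 * c + α + 3) hL)
  have e3 : Bl * js ^ 9 * pl ^ (3 * c) * L ^ (10 * j0 + 3 * c + α + 3) =
      (js * L ^ j0) ^ 6 * (js * L ^ j0 * (pl * L) ^ c) ^ 3 * (Bl * L ^ (α + j0 + 3)) := by
    ring
  rw [e3, h9]
  linear_combination (-(gs * w1)) * e1 + gs * (M * a1 * js ^ 6 * (js * pl ^ c) ^ 2 * dps) * e2

variable {k F σ : Type} [Field k] [Field F] [Algebra k F]

theorem itg_aeval (u : Fin 3 → F) (f : MvPolynomial (Fin 3) k) : Itg k u (aeval u f) :=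
  RingHom.isIntegralElem_map _

theorem dsum (c : Fin 3 → F) (dd : Fin 3 → Derivation k F F) (a : F) :
    (∑ l, c l • dd l) a = ∑ l, c l * dd l a := by
  rw [← Derivation.coeFnAddMonoidHom_apply, map_sum, Finset.sum_apply]
  rfl

theorem dsum_u (c u : Fin 3 → F) (dd : Fin 3 → Derivation k F F)
    (h : ∀ l j, dd l (u j) = if l = j then 1 else 0) (j : Fin 3) :
    (∑ l, c l • dd l) (u j) = c j := by
  rw [dsum]
  simp [h]

theorem hm_u (u : Fin 3 → F) (dd : Fin 3 → Derivation k F F)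
    (h : ∀ l j, dd l (u j) = if l = j then 1 else 0) (j : Fin 3) : Hm k (eu u dd) 1 (u j) := by
  unfold Hm eu
  rw [dsum_u u u dd h j]
  simp

theorem hm_unique [CharZero F] {E : Derivation k F F} {a : F} {s t : ℤ} (ha : a ≠ 0)
    (hs : Hm k E s a) (ht : Hm k E t a) : s = t := by
  unfold Hm at *
  rw [hs] at ht
  exact Int.cast_injective (mul_right_cancel₀ ha ht)

/-- forms in the local ring -/
theorem mkO (X : σ → F) (s : σ → k) (L0 : MvPolynomial σ k) (h0 : L0.IsHomogeneous 1)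
    (hs : eval s L0 ≠ 0) (hL : aeval X L0 ≠ 0) (D : ℕ) (f : MvPolynomial σ k)
    (hf : f.IsHomogeneous D) : ∃ q : Os X s, (q : F) * aeval X L0 ^ D = aeval X f := by
  refine ⟨⟨aeval X f / aeval X L0 ^ D, D, f, L0 ^ D, ⟨hf, ?_, ?_⟩, ?_⟩, ?_⟩
  · simpa using h0.pow D
  · rw [map_pow, div_mul_cancel₀ _ (pow_ne_zero _ hL)]
  · rw [map_pow]
    exact pow_ne_zero _ hs
  · exact div_mul_cancel₀ _ (pow_ne_zero _ hL)

/-- integral elements in the local ring -/
theorem mkI [CharZero k] (hHMF : T_HMF) (X : σ → F) (u : Fin 3 → F)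
    (dd : Fin 3 → Derivation k F F) (J : MvPolynomial (Fin 3) k) (j0 : ℕ) (hY : SYd X u dd J j0)
    (s : σ → k) (L0 : MvPolynomial σ k) (h0 : L0.IsHomogeneous 1) (hs : eval s L0 ≠ 0)
    (hL : aeval X L0 ≠ 0) (w : F) (e : ℕ) (hw : Itg k u w) (he : Hm k (eu u dd) e w) :
    ∃ q : Os X s, (q : F) * aeval X L0 ^ (j0 + e) = aeval u J * w := by
  have h1 : Hm k (eu u dd) ((j0 + e : ℕ) : ℤ) (aeval u J * w) := by
    have := hm_mul (hm_aeval (hm_u u dd hY.ddu) hY.Jh) he
    rwa [Nat.cast_add]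
  obtain ⟨f, hf, hfe⟩ := hHMF k F σ X u dd J j0 hY (aeval u J * w) (j0 + e) (hY.JI w hw) h1
  obtain ⟨q, hq⟩ := mkO X s L0 h0 hs hL (j0 + e) f hf
  exact ⟨q, by rw [hq, hfe]⟩

end Lift

theorem pf_DSO (hTAY : T_TAY) (hTAK : T_TAK) (hHMF : T_HMF) (hHDD : T_HDD) (hCRT : T_CRT)
    (hDSI : T_DSI) (hGND : T_GND) (hDGN : T_DGN) : T_DSO := by
  intro k F σ _ _ _ _ _ _ _ X u dd J j0 m G GP hY hD s _ hC L0 L1 cX cG ε x1 Gs dX dG hF hN α A b
    hB p A1 b1 hLf
  classical
  haveI : CharZero F := charZero_of_injective_algebraMap (algebraMap k F).injective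
  haveI := hN
  have hm2 := hD.two
  have hLne : aeval X L0 ≠ 0 := fun h => hF.v0 (hC.pt L0 h)
  have hJne : aeval u J ≠ 0 := fun h => hY.J0 ((map_eq_zero_iff _ hY.ind).mp h)
  have hJhm : Hm k (eu u dd) (j0 : ℤ) (aeval u J) := hm_aeval (hm_u u dd hY.ddu) hY.Jh
  have hAhm : Hm k (eu u dd) (α : ℤ) (aeval u A) := hm_aeval (hm_u u dd hY.ddu) hB.hA
  have hgs : (Gs : F) * aeval X L0 ^ m = G := by rw [hF.eG, hD.val]
  -- the derivation
  have hδu : ∀ j, (∑ l, cX l • dd l) (u j) = cX j := dsum_u cX u dd hY.ddu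
  have hδL : (∑ l, cX l • dd l) (aeval X L0) = 0 := hF.der.x0
  have hδG : (∑ l, cX l • dd l) G = 0 := by
    rw [← hD.val]
    exact hF.der.x2
  have hdp : ∀ h : Os X s, ∀ z : F, (h : F) * aeval X L0 = z →
      ((dX h : Os X s) : F) * aeval X L0 = (∑ l, cX l • dd l) z := by
    intro h z hz
    rw [hF.dX, ← hz, Derivation.leibniz, hδL, smul_zero, zero_add, smul_eq_mul, mul_comm]
  have hp1 : ∀ i, ((dX (p i) : Os X s) : F) * aeval X L0 = cX i := by
    intro i
    rw [hdp (p i) (u i) (hLf.hp i), hδu]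
  have hp2 : ∀ i, ((dX (dX (p i)) : Os X s) : F) * aeval X L0 = (∑ l, cX l • dd l) (cX i) :=
    fun i => hdp (dX (p i)) (cX i) (hp1 i)
  -- the element `l` and the certificate
  obtain ⟨l, hl⟩ := (hDGN k F u dd hY.ddu hY.ind m G hD.crd.ne hD.crd.hom).2 (by omega)
  obtain ⟨c, d, f, hf, hfe⟩ := hCRT k F σ X u dd J j0 hY m G (by omega) hD.crd l
  have hgm : ∀ i, Hm k (eu u dd) ((m : ℤ) - 1) (dd i G) := fun i =>
    hHDD k F u dd hY.ddu hY.comm m G i hD.crd.hom
  have hHm : ∀ i j, Hm k (eu u dd) ((m : ℤ) - 2) (dd i (dd j G)) := fun i j => by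
    have := hHDD k F u dd hY.ddu hY.comm ((m : ℤ) - 1) (dd j G) i (hgm j)
    have h2 : ((m : ℤ) - 1 - 1) = (m : ℤ) - 2 := by ring
    rwa [h2] at this
  have hul : u l ≠ 0 := hY.ind.ne_zero l
  have hdeg : d + m = j0 + c + 1 := by
    have h1 : Hm k (eu u dd) ((d : ℤ) + ((m : ℤ) - 1)) (aeval u J * u l ^ c) := by
      rw [← hfe]
      refine hm_sum _ _ fun i _ => hm_mul (hm_aeval (fun i => ?_) (hf i)) (hgm i)
      unfold Hm
      rw [hY.Xeu]
      simp
    have h2 := hm_mul hJhm (hm_pow (hm_u u dd hY.ddu l) c)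
    have h3 := hm_unique (mul_ne_zero hJne (pow_ne_zero _ hul)) h1 h2
    omega
  -- the identity
  obtain ⟨Q0, hQhom, hQhc, hQitg, hQid⟩ : ∃ Q0 : MvPolynomial (Fin 3) F, Q0.IsHomogeneous 3 ∧
      (∀ a, Hm k (eu u dd) ((α : ℤ) + 6 * j0 + 3 * m - 3) (Q0.coeff a)) ∧
      (∀ a, Itg k u (Q0.coeff a / G)) ∧
      aeval u J ^ 6 * (aeval u J * u l ^ c) ^ 3 * (aeval u A *
        dt u cX (fun i => (∑ l, cX l • dd l) (cX i)) + eval cX b) =
      eval (cr cX (fun i => aeval X (f i))) Q0 - m * G * aeval u A * aeval u J ^ 6 *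
        (aeval u J * u l ^ c) ^ 2 * dp (cr cX (fun i => aeval X (f i)))
          (fun i => (∑ l, cX l • dd l) (cX i)) := by
    refine ⟨_, q0_hom (aeval u J) (aeval u A) u (grd dd G) (hes dd G) b hB.hb,
      q0_hc (k := k) (E := eu u dd) j0 m α (aeval u J) (aeval u A) u (grd dd G) (hes dd G) b hB.hb
        hB.hm hJhm hAhm (hm_u u dd hY.ddu) hgm hHm, hB.comp, ?_⟩
    refine hDSI F (Derivation.restrictScalars ℤ (∑ l, cX l • dd l)) m u (grd dd G) cX
      (fun i => aeval X (f i)) G (aeval u A) (aeval u J) (aeval u J * u l ^ c) (hes dd G) b hB.hb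
      ?_ ?_ ?_ ?_
    · have h1 := hD.crd.hom
      unfold Hm eu at h1
      rw [dsum] at h1
      unfold dp grd
      rw [h1]
      simp
    · rw [dsum] at hδG
      unfold dp grd
      rw [← hδG]
      exact Finset.sum_congr rfl fun i _ => mul_comm _ _
    · intro i
      change (∑ l, cX l • dd l) (dd i G) = _
      rw [dsum]
      unfold hes
      exact Finset.sum_congr rfl fun j _ => mul_comm _ _
    · unfold dp grd
      rw [← hfe]
      exact Finset.sum_congr rfl fun i _ => mul_comm _ _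
  -- elements of the local ring
  obtain ⟨js, hjs⟩ := mkI hHMF X u dd J j0 hY s L0 hF.l0 hF.v0 hLne 1 0
    (by have := itg_aeval (k := k) u 1; rwa [map_one] at this)
    (by have := hm_one (κ := k) (E := eu u dd); simpa using this)
  have hq : ∀ a, ∃ q : Os X s, (q : F) * aeval X L0 ^ (j0 + (α + 6 * j0 + (2 * m - 3))) =
      aeval u J * (Q0.coeff a / G) := by
    intro a
    refine mkI hHMF X u dd J j0 hY s L0 hF.l0 hF.v0 hLne _ _ (hQitg a) ?_
    have h1 := Pool.Agent.H62.HIL.hm_div (hQhc a) hD.crd.hom hD.crd.ne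
    have h2 : (α : ℤ) + 6 * j0 + 3 * m - 3 - m = ((α + 6 * j0 + (2 * m - 3) : ℕ) : ℤ) := by
      omega
    rwa [h2] at h1
  choose q hq using hq
  choose es hes' using fun i => mkO X s L0 hF.l0 hF.v0 hLne d (f i) (hf i)
  have hρ : ∀ i, ((cr (fun i => dX (p i)) es i : Os X s) : F) * aeval X L0 ^ (d + 1) =
      cr cX (fun i => aeval X (f i)) i := by
    intro i
    unfold cr
    push_cast
    rw [← hes' (i + 2), ← hes' (i + 1), ← hp1 (i + 1), ← hp1 (i + 2)]
    ring
  obtain ⟨w1, hw1⟩ : ∃ w1 : Os X s, (w1 : F) * aeval X L0 ^ (j0 + (α + 6 * j0 + (2 * m - 3))) *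
      (aeval X L0 ^ (d + 1)) ^ 3 * G =
      aeval u J * eval (cr cX (fun i => aeval X (f i))) Q0 := by
    refine ⟨∑ a ∈ Q0.support, q a * ∏ i, cr (fun i => dX (p i)) es i ^ a i, ?_⟩
    have h0 : (((∑ a ∈ Q0.support, q a * ∏ i, cr (fun i => dX (p i)) es i ^ a i : Os X s)) : F) =
        ∑ a ∈ Q0.support, (q a : F) *
          ∏ i, ((cr (fun i => dX (p i)) es i : Os X s) : F) ^ a i := by
      have := map_sum (Os X s).val (fun a => q a * ∏ i, cr (fun i => dX (p i)) es i ^ a i)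
        Q0.support
      simpa using this
    rw [h0, eval_eq', Finset.mul_sum, Finset.sum_mul, Finset.sum_mul, Finset.sum_mul]
    refine Finset.sum_congr rfl fun a ha => ?_
    have h1 := hQhom (mem_support_iff.mp ha)
    rw [Finsupp.weight_apply, Finsupp.sum_fintype _ _ (by simp), Fin.sum_univ_three] at h1
    have h2 : a 0 + a 1 + a 2 = 3 := by simpa using h1
    have h3 : aeval u J * Q0.coeff a = (q a : F) *
        aeval X L0 ^ (j0 + (α + 6 * j0 + (2 * m - 3))) * G := by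
      rw [hq a]
      field_simp [hD.crd.ne]
    rw [Fin.prod_univ_three, Fin.prod_univ_three, ← mul_assoc (aeval u J), h3, ← hρ 0, ← hρ 1,
      ← hρ 2]
    rw [mul_pow, mul_pow, mul_pow]
    have h4 : (aeval X L0 ^ (d + 1)) ^ 3 = (aeval X L0 ^ (d + 1)) ^ a 0 *
        (aeval X L0 ^ (d + 1)) ^ a 1 * (aeval X L0 ^ (d + 1)) ^ a 2 := by
      rw [← pow_add, ← pow_add, h2]
    rw [h4]
    ring
  -- the first coefficient
  have hb0 : bloc dX dG p A1 b1 0 = A1 * dt p (fun i => dX (p i)) (fun i => dX (dX (p i))) +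
      eval (fun i => dX (p i)) b1 := by
    rw [← bcy_zero (fun i => dX (p i)) (fun i => dG (p i)) b1 hLf.hh]
    rfl
  have hbl : ((bloc dX dG p A1 b1 0 : Os X s) : F) * aeval X L0 ^ (α + j0 + 3) =
      aeval u J * (aeval u A * dt u cX (fun i => (∑ l, cX l • dd l) (cX i)) + eval cX b) := by
    have h1 := eval_lift ((Os X s).val : Os X s →+* F) 3 (α + j0) (aeval X L0) (aeval u J) b1 b
      hLf.hh hLf.hb (fun i => dX (p i)) cX hp1
    have h2 := dt_map ((Os X s).val : Os X s →+* F) p (fun i => dX (p i))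
      (fun i => dX (dX (p i)))
    have h3 : dt u cX (fun i => (∑ l, cX l • dd l) (cX i)) =
        dt (fun i => (p i : F)) (fun i => ((dX (p i) : Os X s) : F))
          (fun i => ((dX (dX (p i)) : Os X s) : F)) * aeval X L0 ^ 3 := by
      rw [← dt_scale]
      simp only [hLf.hp, hp1, hp2]
    have h4 : ((bloc dX dG p A1 b1 0 : Os X s) : F) = (A1 : F) *
        ((Os X s).val : Os X s →+* F) (dt p (fun i => dX (p i)) (fun i => dX (dX (p i)))) +
        ((Os X s).val : Os X s →+* F) (eval (fun i => dX (p i)) b1) := by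
      rw [hb0]
      rfl
    rw [h4, h2, add_mul, h1, h3, mul_add, ← mul_assoc (aeval u J) (aeval u A), ← hLf.hA]
    have h5 : aeval X L0 ^ (α + j0 + 3) = aeval X L0 ^ (α + j0) * aeval X L0 ^ 3 := pow_add _ _ _
    rw [h5]
    change (A1 : F) * dt (fun i => (p i : F)) (fun i => ((dX (p i) : Os X s) : F))
          (fun i => ((dX (dX (p i)) : Os X s) : F)) * _ + _ = _
    ring
  -- the identity in the local ring
  have hkey : bloc dX dG p A1 b1 0 * js ^ 9 * p l ^ (3 * c) =
      Gs * (w1 - m * A1 * js ^ 6 * (js * p l ^ c) ^ 2 *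
        dp (cr (fun i => dX (p i)) es) (fun i => dX (dX (p i)))) := by
    apply Subtype.coe_injective
    have h1 := final_id (aeval X L0) ((bloc dX dG p A1 b1 0 : Os X s) : F) js (p l) A1 Gs w1
      ((dp (cr (fun i => dX (p i)) es) (fun i => dX (dX (p i))) : Os X s) : F)
      (aeval u J) _ (aeval u A) G (u l) _ _ (m : F) j0 c α m d hLne hm2 hdeg hbl hjs (hLf.hp l)
      hLf.hA hgs hw1 ?_ hQid
    · simpa using h1
    · have h2 := dp_map ((Os X s).val : Os X s →+* F) (cr (fun i => dX (p i)) es)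
        (fun i => dX (dX (p i)))
      have h3 : ((dp (cr (fun i => dX (p i)) es) (fun i => dX (dX (p i))) : Os X s) : F) =
          dp (fun i => ((cr (fun i => dX (p i)) es i : Os X s) : F))
            (fun i => ((dX (dX (p i)) : Os X s) : F)) := h2
      rw [h3]
      unfold dp
      rw [Finset.sum_mul]
      refine Finset.sum_congr rfl fun i _ => ?_
      beta_reduce
      rw [← hρ i, ← hp2 i]
      ring
  -- the Taylor homomorphism
  obtain ⟨cc, hcp, hcG, -⟩ := hTAY k (Os X s) ε x1 Gs dX dG hF.frm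
  have hdiv : ∀ h, cc h = 0 → Gs ∣ h := hTAK k (Os X s) ε x1 Gs dX dG hF.frm cc hcp hcG
  have hn1 : cc js ≠ 0 := by
    intro h0
    refine hGND k F σ X u dd J j0 m G GP hY hD s hC hF.vG L0 hF.l0 hF.v0 Gs hgs js (aeval u J) j0
      (itg_aeval u J) (by simpa using hjs) ?_ (hdiv _ h0)
    exact (hDGN k F u dd hY.ddu hY.ind m G hD.crd.ne hD.crd.hom).1 _ j0 hJne (itg_aeval u J) hJhm
      hD.big
  have hn2 : cc (p l) ≠ 0 := by
    intro h0
    refine hGND k F σ X u dd J j0 m G GP hY hD s hC hF.vG L0 hF.l0 hF.v0 Gs hgs (p l) (u l) 1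
      ?_ (by rw [pow_one]; exact hLf.hp l) hl (hdiv _ h0)
    have := itg_aeval (k := k) u (MvPolynomial.X l)
    rwa [aeval_X] at this
  have h0 := congrArg cc hkey
  rw [map_mul, map_mul, map_pow, map_pow, map_mul cc Gs, hcG, zero_mul] at h0
  refine hdiv _ ?_
  rcases mul_eq_zero.mp h0 with h1 | h1
  · rcases mul_eq_zero.mp h1 with h2 | h2
    · exact h2
    · exact absurd h2 (pow_ne_zero _ hn1)
  · exact absurd h1 (pow_ne_zero _ hn2)

end Pool.Agent.H70.SF
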